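import Pool.Agent.helper55.FPZ.Spec

set_option autoImplicit false

namespace Pool.Agent.FPZ

open Matrix Polynomial Pool.Agent.PL Pool.Agent.X4

theorem SPB (hBX : BX_stmt) : SPB_stmt := by
  intro F _ _ N E D T hT X hX
  have h := hBX F N T X hX
  refine Submodule.span_induction (p := fun X _ => ∃ B ∈ Submodule.span F (cst F '' gD D),
    ∃ C ∈ Submodule.span F (cst F '' Zm D), X = B + C) ?_ ?_ ?_ ?_ h
  · rintro _ ⟨W, hW, rfl⟩
    obtain ⟨Y, hY, z, hz, rfl⟩ := hT W hW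
    refine ⟨cst F Y, Submodule.subset_span ⟨Y, hY, rfl⟩, cst F z, Submodule.subset_span ⟨z, hz, rfl⟩, ?_⟩
    ext i j
    simp [cst]
  · exact ⟨0, Submodule.zero_mem _, 0, Submodule.zero_mem _, (add_zero 0).symm⟩
  · rintro x y _ _ ⟨B, hB, C, hC, rfl⟩ ⟨B', hB', C', hC', rfl⟩
    exact ⟨B + B', Submodule.add_mem _ hB hB', C + C', Submodule.add_mem _ hC hC', by abel⟩
  · rintro c x _ ⟨B, hB, C, hC, rfl⟩
    exact ⟨c • B, Submodule.smul_mem _ c hB, c • C, Submodule.smul_mem _ c hC, smul_add c B C⟩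

end Pool.Agent.FPZ
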